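import Pool.Agent.Helper75.Lin.Word

/-!
# Linear languages reduce to reachability in acyclic graphs
-/

namespace Pool.Agent.Helper75.Lin

open Classical Pool.Agent.Helper38.LinL Pool.Agent.Helper38.LinL.LinearGrammar

set_option linter.unusedSimpArgs false
set_option linter.unusedVariables false
set_option linter.unusedSectionVars false

section FP

variable {α : Type} {Y : Type} [Cod Y]

theorem FP.zz {N : List α → Y → ℕ} (hN : Fn N) {E : List α → Y × ℕ × ℕ → Prop} (hE : FP E)
    {k o : List α → Y → ℕ} (hk : Fn k) (ho : Fn o) :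
    FP fun w y => ZZ (N w y) (fun p q => E w (y, p, q)) (k w y) (o w y) := by
  unfold ZZ
  have c : ∀ m, Fn fun (_ : List α) (_ : Y) => m := fun m => Fn.const m
  have hs : Fn fun w y => k w y % 5 := hk.mod (c 5)
  have h5 : Fn fun w y => k w y / 5 := hk.div (c 5)
  have hr : Fn fun w y => k w y / 5 % N w y := h5.mod hN
  have h6 : Fn fun w y => k w y / 5 / N w y := h5.div hN
  have hq : Fn fun w y => k w y / 5 / N w y % N w y := h6.mod hN
  have hp : Fn fun w y => k w y / 5 / N w y / N w y := h6.div hN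
  have h6r : Fn fun w y => 6 * (k w y / 5 % N w y) := (c 6).mul hr
  have hEpq : FP fun w y => E w (y, k w y / 5 / N w y / N w y, k w y / 5 / N w y % N w y) :=
    hE.comp (Fn.id.pair (hp.pair hq))
  have s : ∀ m, FP fun w y => k w y % 5 = m := fun m => FP.eq hs (c m)
  have f : ∀ m, FP fun w y => o w y = 6 * (k w y / 5 % N w y) + m := fun m =>
    FP.eq ho (h6r.add (c m))
  exact (hEpq.and ((FP.le hp hr).and (FP.lt hr hq))).and
    (((s 0).and ((FP.eq hr hp).and (f 1))).or
      (((FP.lt hr.succ hq).and (((s 1).and ((f 4).or (f 5))).or (((s 2).and (f 2)).or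
        (((s 3).and ((f 7).or (f 8))).or ((s 4).and (f 5)))))).or
      ((FP.eq hr.succ hq).and (((s 1).and (f 3)).or (((s 2).and (f 2)).or
        (((s 3).and (f 5)).or ((s 4).and (f 4))))))))

/-- Reachability in acyclic graphs given by logarithmic space predicates. -/
theorem FP.dag (h : InL G5.language) {N : List α → Y → ℕ} (hN : Fn N) (hN0 : ∀ w y, 0 < N w y)
    {E : List α → Y × ℕ × ℕ → Prop} (hE : FP E) :
    FP fun w y => Relation.ReflTransGen (DagStep (N w y) fun p q => E w (y, p, q)) 0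
      (N w y - 1) := by
  have hK : Fn fun w y => N w y * N w y * 5 * N w y := ((hN.mul hN).mul (Fn.const 5)).mul hN
  have hD : Fn fun w y => 6 * N w y := (Fn.const 6).mul hN
  have hKD := hK.mul hD
  have hYY : Fn fun w y => N w y * N w y * 5 * N w y * (6 * N w y) + 6 * (N w y - 1) :=
    hKD.add ((Fn.const 6).mul hN.pred)
  refine FP.congr (P := fun w y => dagWord (N w y) (fun p q => E w (y, p, q)) ∈ G5.language)
    ?_ fun w y => (dagWord_mem (hN0 w y)).symm
  refine FP.inL_comp h (V := fun w y => dagWord (N w y) (fun p q => E w (y, p, q))) ?_ ?_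
  · simp only [dagWord, hw_length]
    exact hKD.add hYY
  · intro β
    have hm : Fn fun (w : List α) (z : Y × ℕ) => z.2 := Fn.id.snd
    have g : ∀ {f : List α → Y → ℕ}, Fn f → Fn fun (w : List α) (z : Y × ℕ) => f w z.1 :=
      fun hf => hf.comp Fn.id.fst
    have hlen := (g hKD).add (g hYY)
    have h1 := FP.lt hm hlen
    have h2 := FP.lt hm (g hKD)
    have h3 := FP.eq (hm.mod (g hD)) (Fn.const 0)
    have hidx := (hlen.sub (Fn.const 1)).sub hm
    have hE' : FP fun (w : List α) (z : (Y × ℕ) × ℕ × ℕ) => E w (z.1.1, z.2.1, z.2.2) :=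
      hE.comp (g := fun (w : List α) (z : (Y × ℕ) × ℕ × ℕ) => (z.1.1, z.2.1, z.2.2))
        (Fn.id.fst.fst.pair (Fn.id.snd.fst.pair Fn.id.snd.snd))
    have h5 := FP.zz (g hN) hE' (hidx.div (g hD)) (hidx.mod (g hD))
    simp only [dagWord, hw_get]
    cases β with
    | a =>
      refine (h1.and (h2.and h3.not)).congr fun w z => ?_
      split_ifs <;> simp_all
    | b =>
      refine (h1.and (h2.and h3)).congr fun w z => ?_
      split_ifs <;> simp_all
    | zero =>
      refine (h1.and (h2.not.and h5.not)).congr fun w z => ?_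
      split_ifs <;> simp_all
    | one =>
      refine (h1.and (h2.not.and h5)).congr fun w z => ?_
      split_ifs <;> simp_all

theorem FP.mtW {f : List α → Y → ℕ → ℕ} (hf : ∀ s, Fn fun w y => f w y s) (u : List α) :
    FP fun w y => Mt (fun s => w[f w y s]?) u := by
  refine (FP.allFin (β := Fin u.length) (P := fun s w y => w[f w y s]? = some u[s])
    fun s => Fn.letterP _ (hf s)).congr fun w y => ?_
  constructor
  · intro h s
    have := h s s.2
    simpa using this
  · intro h s hs
    have := h ⟨s, hs⟩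
    simpa [List.getElem?_eq_getElem hs] using this

end FP

section confs

variable {α : Type} (G : LinearGrammar α)

/-- Derivations by unit rules. -/
def UC (A B : G.N) : Prop := G.Derives A [] B []

/-- Unit rules followed by one other rule. -/
def CStep (w : List α) (c c' : ℕ × ℕ × G.N) : Prop :=
  ∃ r ∈ G.rules, UC G c.2.2 r.1 ∧ 0 < r.2.1.length + r.2.2.2.length ∧
    c.1 + c.2.1 + (r.2.1.length + r.2.2.2.length) ≤ w.length ∧
    c' = (c.1 + r.2.1.length, c.2.1 + r.2.2.2.length, r.2.2.1) ∧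
    Mt (fun s => w[c.1 + s]?) r.2.1 ∧
    Mt (fun s => w[w.length - 1 - (c.2.1 + s)]?) r.2.2.2.reverse

/-- Acceptance. -/
def CAcc (w : List α) (c : ℕ × ℕ × G.N) : Prop :=
  ∃ r ∈ G.term, UC G c.2.2 r.1 ∧ c.1 + r.2.length + c.2.1 = w.length ∧
    Mt (fun s => w[c.1 + s]?) r.2

variable {G}

theorem conf_of_derives {w : List α} {B : G.N} {u v : List α} (h : G.Derives G.start u B v) :
    u.length + v.length ≤ w.length → Mt (fun s => w[s]?) u →
    Mt (fun s => w[w.length - 1 - s]?) v.reverse →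
    ∃ C, Relation.ReflTransGen (CStep G w) (0, 0, G.start) (u.length, v.length, C) ∧
      UC G C B := by
  induction h with
  | refl => exact fun _ _ _ => ⟨G.start, Relation.ReflTransGen.refl, Derives.refl⟩
  | @step u B v u' C v' h hr ih =>
    intro hl hu hv
    rw [List.reverse_append] at hv
    rw [Mt.append] at hu hv
    simp only [List.length_append] at hl
    obtain ⟨D, h1, h2⟩ := ih (by omega) hu.1 hv.1
    by_cases h0 : 0 < u'.length + v'.length
    · refine ⟨C, h1.tail ⟨_, hr, h2, h0, ?_, ?_, hu.2, ?_⟩, Derives.refl⟩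
      · simp only; omega
      · simp only [List.length_append, Prod.mk.injEq, true_and]
        exact ⟨by omega, trivial⟩
      · simpa using hv.2
    · have hu' : u' = [] := List.length_eq_zero_iff.1 (by omega)
      have hv' : v' = [] := List.length_eq_zero_iff.1 (by omega)
      subst hu'
      subst hv'
      refine ⟨D, by simpa using h1, ?_⟩
      have := Derives.step h2 hr
      simpa [UC] using this

theorem derives_of_conf {w : List α} {c : ℕ × ℕ × G.N}
    (h : Relation.ReflTransGen (CStep G w) (0, 0, G.start) c) :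
    c.1 + c.2.1 ≤ w.length ∧ ∃ u v, G.Derives G.start u c.2.2 v ∧ u.length = c.1 ∧
      v.length = c.2.1 ∧ Mt (fun s => w[s]?) u ∧
      Mt (fun s => w[w.length - 1 - s]?) v.reverse := by
  induction h with
  | refl => exact ⟨Nat.zero_le _, [], [], Derives.refl, rfl, rfl, Mt.nil, Mt.nil⟩
  | tail _ hs ih =>
    obtain ⟨_, u, v, h1, h2, h3, h4, h5⟩ := ih
    obtain ⟨⟨A, u', B, v'⟩, hr, h6, _, h8, rfl, h9, h10⟩ := hs
    simp only at h6 h8 h9 h10 ⊢
    refine ⟨by omega, u ++ u', v' ++ v, ?_, by simp [h2], by simp [h3, add_comm], ?_, ?_⟩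
    · have := Derives.trans h1 h6
      rw [List.append_nil, List.nil_append] at this
      exact Derives.step this hr
    · rw [Mt.append]
      exact ⟨h4, by rw [h2]; exact h9⟩
    · rw [List.reverse_append, Mt.append]
      exact ⟨h5, by rw [List.length_reverse, h3]; exact h10⟩

theorem mem_iff_conf {w : List α} : w ∈ G.language ↔
    ∃ c, Relation.ReflTransGen (CStep G w) (0, 0, G.start) c ∧ CAcc G w c := by
  have hs : Spn w 0 w.length w := ⟨by simp, le_rfl, fun s hs => by simp⟩
  constructor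
  · rintro ⟨u, B, v, t, h1, h2, h3⟩
    have hl := congrArg List.length h3
    simp only [List.length_append] at hl
    rw [show Spn w 0 w.length w ↔ Spn w 0 w.length (u ++ t ++ v) by rw [← h3],
      spn_append, spn_append] at hs
    simp only [List.length_append, zero_add] at hs
    have hv : Mt (fun s => w[w.length - 1 - s]?) v.reverse :=
      (spn_reverse le_rfl (by omega)).2 hs.2
    obtain ⟨C, h4, h5⟩ := conf_of_derives h1 (by omega) (by simpa using hs.1.1.2.2) hv
    exact ⟨_, h4, (B, t), h2, h5, by simp only; omega, hs.1.2.2.2⟩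
  · rintro ⟨c, h1, ⟨B, t⟩, h2, h3, h4, h5⟩
    obtain ⟨h0, u, v, h6, h7, h8, h9, h10⟩ := derives_of_conf h1
    simp only at h3 h4 h5
    refine ⟨u, B, v, t, ?_, h2, ?_⟩
    · have := Derives.trans h6 h3
      rwa [List.append_nil, List.nil_append] at this
    · have h11 : Spn w (c.1 + t.length) w.length v := by
        rw [← spn_reverse le_rfl (by omega)]
        exact h10
      have h12 : Spn w 0 w.length (u ++ t ++ v) := by
        rw [spn_append, spn_append]
        simp only [List.length_append, zero_add, h7]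
        exact ⟨⟨⟨by omega, by omega, by simpa using h9⟩, rfl, by omega, h5⟩, h11⟩
      refine Mt.inj hs.2.2 h12.2.2 ?_
      have := h12.1
      omega

end confs

section code

variable {α : Type} (G : LinearGrammar α)

/-- Number of nonterminals. -/
noncomputable def mm : ℕ := Nat.card G.N

/-- Number of a nonterminal. -/
noncomputable def ee (A : G.N) : ℕ :=
  haveI := G.finN
  (Finite.equivFin G.N A : ℕ)

theorem ee_lt (A : G.N) : ee G A < mm G := by
  haveI := G.finN
  exact (Finite.equivFin G.N A).2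

variable {G} in
theorem ee_inj {A B : G.N} (h : ee G A = ee G B) : A = B := by
  haveI := G.finN
  exact (Finite.equivFin G.N).injective (Fin.ext h)

/-- Code of a configuration. -/
noncomputable def code (n i j : ℕ) (A : G.N) : ℕ := ((i + j) * (n + 1) + i) * mm G + ee G A + 1

/-- Number of vertices. -/
noncomputable def nV (n : ℕ) : ℕ := (n + 1) * (n + 1) * mm G + 2

variable {G}

theorem mul_add_inj {m a b c d : ℕ} (hb : b < m) (hd : d < m) (h : a * m + b = c * m + d) :
    a = c ∧ b = d := by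
  have h1 : (a * m + b) / m = a := by
    rw [add_comm, Nat.add_mul_div_right _ _ (by omega), Nat.div_eq_of_lt hb, zero_add]
  have h2 : (c * m + d) / m = c := by
    rw [add_comm, Nat.add_mul_div_right _ _ (by omega), Nat.div_eq_of_lt hd, zero_add]
  have h3 : a = c := by rw [← h1, h, h2]
  subst h3
  exact ⟨rfl, by omega⟩

theorem code_inj {n i j i' j' : ℕ} {A A' : G.N} (h1 : i + j ≤ n) (h2 : i' + j' ≤ n)
    (h : code G n i j A = code G n i' j' A') : i = i' ∧ j = j' ∧ A = A' := by
  unfold code at h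
  obtain ⟨h3, h4⟩ := mul_add_inj (ee_lt G A) (ee_lt G A') (by omega :
    ((i + j) * (n + 1) + i) * mm G + ee G A = ((i' + j') * (n + 1) + i') * mm G + ee G A')
  obtain ⟨h5, h6⟩ := mul_add_inj (by omega) (by omega) h3
  exact ⟨h6, by omega, ee_inj h4⟩

theorem code_pos {n i j : ℕ} {A : G.N} : 0 < code G n i j A := by unfold code; omega

theorem code_lt {n i j : ℕ} {A : G.N} (h : i + j ≤ n) : code G n i j A < nV G n - 1 := by
  unfold code nV
  have h1 : (i + j) * (n + 1) + i < (n + 1) * (n + 1) := by nlinarith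
  have h2 := ee_lt G A
  have h3 : ((i + j) * (n + 1) + i + 1) * mm G ≤ (n + 1) * (n + 1) * mm G :=
    Nat.mul_le_mul_right _ h1
  rw [add_mul, one_mul] at h3
  omega

theorem code_lt_code {n i j i' j' : ℕ} {A A' : G.N} (h : i + j < i' + j') (h2 : i + j ≤ n) :
    code G n i j A < code G n i' j' A' := by
  unfold code
  have h1 : (i + j) * (n + 1) + i + 1 ≤ (i' + j') * (n + 1) + i' := by nlinarith
  have h2 := ee_lt G A
  have h3 : ((i + j) * (n + 1) + i + 1) * mm G ≤ ((i' + j') * (n + 1) + i') * mm G :=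
    Nat.mul_le_mul_right _ h1
  rw [add_mul, one_mul] at h3
  omega

variable (G)

/-- Edges of the graph of configurations. -/
def Ed (w : List α) (p q : ℕ) : Prop :=
  (p = 0 ∧ q = code G w.length 0 0 G.start) ∨
    (∃ c c', CStep G w c c' ∧ p = code G w.length c.1 c.2.1 c.2.2 ∧
      q = code G w.length c'.1 c'.2.1 c'.2.2) ∨
    (∃ c, CAcc G w c ∧ p = code G w.length c.1 c.2.1 c.2.2 ∧ q = nV G w.length - 1)

variable {G}

theorem dag_inv {w : List α} {p : ℕ}
    (h : Relation.ReflTransGen (DagStep (nV G w.length) (Ed G w)) 0 p) :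
    p = 0 ∨ (∃ c, Relation.ReflTransGen (CStep G w) (0, 0, G.start) c ∧
      p = code G w.length c.1 c.2.1 c.2.2) ∨
    (p = nV G w.length - 1 ∧
      ∃ c, Relation.ReflTransGen (CStep G w) (0, 0, G.start) c ∧ CAcc G w c) := by
  induction h with
  | refl => exact Or.inl rfl
  | @tail p q _ hs ih =>
    obtain ⟨h1, h2, h3⟩ := hs
    rcases h3 with ⟨_, rfl⟩ | ⟨c, c', h4, h5, rfl⟩ | ⟨c, h4, h5, rfl⟩
    · exact Or.inr (Or.inl ⟨_, Relation.ReflTransGen.refl, rfl⟩)
    · have hb : c.1 + c.2.1 ≤ w.length := by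
        obtain ⟨_, _, _, _, h, _⟩ := h4
        omega
      rcases ih with rfl | ⟨d, h6, h7⟩ | ⟨rfl, _⟩
      · exact absurd h5 (by have := code_pos (n := w.length) (i := c.1) (j := c.2.1) (A := c.2.2); omega)
      · obtain ⟨e1, e2, e3⟩ := code_inj (derives_of_conf h6).1 hb (h7.symm.trans h5)
        have : d = c := Prod.ext e1 (Prod.ext e2 e3)
        subst this
        exact Or.inr (Or.inl ⟨c', h6.tail h4, rfl⟩)
      · omega
    · have hb : c.1 + c.2.1 ≤ w.length := by
        obtain ⟨_, _, _, h, _⟩ := h4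
        omega
      rcases ih with rfl | ⟨d, h6, h7⟩ | ⟨rfl, _⟩
      · exact absurd h5 (by have := code_pos (n := w.length) (i := c.1) (j := c.2.1) (A := c.2.2); omega)
      · obtain ⟨e1, e2, e3⟩ := code_inj (derives_of_conf h6).1 hb (h7.symm.trans h5)
        have : d = c := Prod.ext e1 (Prod.ext e2 e3)
        subst this
        exact Or.inr (Or.inr ⟨rfl, d, h6, h4⟩)
      · omega

theorem dag_of_conf {w : List α} {c : ℕ × ℕ × G.N}
    (h : Relation.ReflTransGen (CStep G w) (0, 0, G.start) c) :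
    Relation.ReflTransGen (DagStep (nV G w.length) (Ed G w)) 0
      (code G w.length c.1 c.2.1 c.2.2) := by
  induction h with
  | refl =>
    refine Relation.ReflTransGen.single ⟨code_pos, ?_, Or.inl ⟨rfl, rfl⟩⟩
    have := code_lt (G := G) (n := w.length) (i := 0) (j := 0) (A := G.start) (by omega)
    simp only
    omega
  | @tail c c' h1 h2 ih =>
    have h2' := h2
    obtain ⟨r, _, _, h3, h4, h5, _⟩ := h2'
    have hb' : c'.1 + c'.2.1 ≤ w.length := by rw [h5]; simp only; omega
    have hlt : c.1 + c.2.1 < c'.1 + c'.2.1 := by rw [h5]; simp only; omega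
    refine ih.tail ⟨code_lt_code hlt (by omega), ?_, Or.inr (Or.inl ⟨c, c', h2, rfl, rfl⟩)⟩
    have := code_lt (G := G) (n := w.length) (A := c'.2.2) hb'
    omega

theorem mem_iff_dag {w : List α} : w ∈ G.language ↔
    Relation.ReflTransGen (DagStep (nV G w.length) (Ed G w)) 0 (nV G w.length - 1) := by
  rw [mem_iff_conf]
  constructor
  · rintro ⟨c, h1, h2⟩
    have hb : c.1 + c.2.1 ≤ w.length := (derives_of_conf h1).1
    have := code_lt (G := G) (n := w.length) (A := c.2.2) hb
    exact (dag_of_conf h1).tail ⟨this, by omega, Or.inr (Or.inr ⟨c, h2, rfl, rfl⟩)⟩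
  · intro h
    rcases dag_inv h with h1 | ⟨c, h1, h2⟩ | ⟨_, h1⟩
    · unfold nV at h1
      omega
    · have hb : c.1 + c.2.1 ≤ w.length := (derives_of_conf h1).1
      have := code_lt (G := G) (n := w.length) (A := c.2.2) hb
      omega
    · exact h1

theorem ed_iff {w : List α} {p q : ℕ} : Ed G w p q ↔
    (p = 0 ∧ q = code G w.length 0 0 G.start) ∨
    ∃ i < w.length + 1, ∃ j < w.length + 1,
      (∃ r ∈ G.rules, ∃ A, (UC G A r.1 ∧ 0 < r.2.1.length + r.2.2.2.length) ∧
        i + j + (r.2.1.length + r.2.2.2.length) ≤ w.length ∧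
        (p = code G w.length i j A ∧
          q = code G w.length (i + r.2.1.length) (j + r.2.2.2.length) r.2.2.1) ∧
        Mt (fun s => w[i + s]?) r.2.1 ∧
        Mt (fun s => w[w.length - 1 - (j + s)]?) r.2.2.2.reverse) ∨
      (∃ r ∈ G.term, ∃ A, UC G A r.1 ∧ i + r.2.length + j = w.length ∧
        (p = code G w.length i j A ∧ q = nV G w.length - 1) ∧
        Mt (fun s => w[i + s]?) r.2) := by
  unfold Ed
  refine or_congr Iff.rfl ?_
  constructor
  · rintro (⟨c, c', ⟨r, h1, h2, h3, h4, h5, h6, h7⟩, h8, h9⟩ | ⟨c, ⟨r, h1, h2, h3, h4⟩, h5, h6⟩)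
    · subst h5
      exact ⟨c.1, by omega, c.2.1, by omega, Or.inl ⟨r, h1, c.2.2, ⟨h2, h3⟩, h4, ⟨h8, h9⟩,
        h6, h7⟩⟩
    · exact ⟨c.1, by omega, c.2.1, by omega, Or.inr ⟨r, h1, c.2.2, h2, h3, ⟨h5, h6⟩, h4⟩⟩
  · rintro ⟨i, _, j, _, ⟨r, h1, A, ⟨h2, h3⟩, h4, ⟨h5, h6⟩, h7, h8⟩ |
      ⟨r, h1, A, h2, h3, ⟨h4, h5⟩, h6⟩⟩
    · exact Or.inl ⟨(i, j, A), _, ⟨r, h1, h2, h3, h4, rfl, h7, h8⟩, h5, h6⟩
    · exact Or.inr ⟨(i, j, A), ⟨r, h1, h2, h3, h6⟩, h4, h5⟩

theorem FP.ed : FP fun w (z : Unit × ℕ × ℕ) => Ed G w z.2.1 z.2.2 := by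
  refine FP.congr ?_ fun w z => ed_iff
  have hcode : ∀ {X : Type} [Cod X] {i j : List α → X → ℕ} (A : G.N), Fn i → Fn j →
      Fn fun w x => code G w.length (i w x) (j w x) A := by
    intro X _ i j A hi hj
    unfold code
    exact (((((hi.add hj).mul Fn.lenSucc).add hi).mul (Fn.const _)).add (Fn.const _)).succ
  refine FP.or ((FP.eq Fn.id.snd.fst Fn.zero).and
    (FP.eq Fn.id.snd.snd (hcode _ (Fn.const 0) (Fn.const 0)))) ?_
  refine FP.bex (b := fun w (z : Unit × ℕ × ℕ) => w.length + 1) Fn.lenSucc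
    (P := fun w (y : (Unit × ℕ × ℕ) × ℕ) => ∃ j < w.length + 1,
      (∃ r ∈ G.rules, ∃ A, (UC G A r.1 ∧ 0 < r.2.1.length + r.2.2.2.length) ∧
        y.2 + j + (r.2.1.length + r.2.2.2.length) ≤ w.length ∧
        (y.1.2.1 = code G w.length y.2 j A ∧
          y.1.2.2 = code G w.length (y.2 + r.2.1.length) (j + r.2.2.2.length) r.2.2.1) ∧
        Mt (fun s => w[y.2 + s]?) r.2.1 ∧
        Mt (fun s => w[w.length - 1 - (j + s)]?) r.2.2.2.reverse) ∨
      (∃ r ∈ G.term, ∃ A, UC G A r.1 ∧ y.2 + r.2.length + j = w.length ∧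
        (y.1.2.1 = code G w.length y.2 j A ∧ y.1.2.2 = nV G w.length - 1) ∧
        Mt (fun s => w[y.2 + s]?) r.2)) ?_
  refine FP.bex (b := fun w (z : (Unit × ℕ × ℕ) × ℕ) => w.length + 1) Fn.lenSucc
    (P := fun w (y : ((Unit × ℕ × ℕ) × ℕ) × ℕ) =>
      (∃ r ∈ G.rules, ∃ A, (UC G A r.1 ∧ 0 < r.2.1.length + r.2.2.2.length) ∧
        y.1.2 + y.2 + (r.2.1.length + r.2.2.2.length) ≤ w.length ∧
        (y.1.1.2.1 = code G w.length y.1.2 y.2 A ∧
          y.1.1.2.2 = code G w.length (y.1.2 + r.2.1.length) (y.2 + r.2.2.2.length) r.2.2.1) ∧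
        Mt (fun s => w[y.1.2 + s]?) r.2.1 ∧
        Mt (fun s => w[w.length - 1 - (y.2 + s)]?) r.2.2.2.reverse) ∨
      (∃ r ∈ G.term, ∃ A, UC G A r.1 ∧ y.1.2 + r.2.length + y.2 = w.length ∧
        (y.1.1.2.1 = code G w.length y.1.2 y.2 A ∧ y.1.1.2.2 = nV G w.length - 1) ∧
        Mt (fun s => w[y.1.2 + s]?) r.2)) ?_
  haveI := G.finN
  haveI : Fintype G.N := Fintype.ofFinite _
  let X := ((Unit × ℕ × ℕ) × ℕ) × ℕ
  have hi : Fn fun (w : List α) (y : X) => y.1.2 := Fn.id.fst.snd
  have hj : Fn fun (w : List α) (y : X) => y.2 := Fn.id.snd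
  have hp : Fn fun (w : List α) (y : X) => y.1.1.2.1 := Fn.id.fst.fst.snd.fst
  have hq : Fn fun (w : List α) (y : X) => y.1.1.2.2 := Fn.id.fst.fst.snd.snd
  have hlen : Fn fun (w : List α) (y : X) => w.length := Fn.len
  refine FP.or (FP.bexF _ fun r _ => FP.exFin fun A => ?_)
    (FP.bexF _ fun r _ => FP.exFin fun A => ?_)
  · exact (FP.constP _).and ((FP.le ((hi.add hj).add (Fn.const _)) hlen).and
      (((FP.eq hp (hcode A hi hj)).and (FP.eq hq (hcode _ (hi.add (Fn.const _))
        (hj.add (Fn.const _))))).and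
      ((FP.mtW (fun s => hi.add (Fn.const s)) _).and
        (FP.mtW (fun s => (hlen.sub (Fn.const 1)).sub (hj.add (Fn.const s))) _))))
  · have hnV : Fn fun (w : List α) (y : X) => nV G w.length - 1 := by
      unfold nV
      exact ((((Fn.lenSucc.mul Fn.lenSucc).mul (Fn.const _)).add (Fn.const 2))).sub (Fn.const 1)
    exact (FP.constP _).and ((FP.eq ((hi.add (Fn.const _)).add hj) hlen).and
      (((FP.eq hp (hcode A hi hj)).and (FP.eq hq hnV)).and
      (FP.mtW (fun s => hi.add (Fn.const s)) _)))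

/-- If the language of `G5` is in `L` then so are all linear languages. -/
theorem inL_of_G5 (h : InL G5.language) : InL G.language := by
  refine inL_of_FP _ (fun w y => Relation.ReflTransGen (DagStep (nV G w.length)
    fun p q => Ed G w p q) 0 (nV G w.length - 1)) ?_ fun w => mem_iff_dag.symm
  refine FP.dag h (N := fun w y => nV G w.length) ?_ ?_
    (E := fun w (z : Unit × ℕ × ℕ) => Ed G w z.2.1 z.2.2) FP.ed
  · unfold nV
    exact ((Fn.lenSucc.mul Fn.lenSucc).mul (Fn.const _)).add (Fn.const 2)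
  · intro w y
    unfold nV
    omega

end code

end Pool.Agent.Helper75.Lin
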