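import Pool.Agent.Helper38.LinL.Grammar

/-!
# A tiny linear grammar
-/

namespace Pool.Agent.Helper75.Lin

open Pool.Agent.Helper38.LinL

/-- Four letters. -/
inductive Let4 : Type
  | a : Let4
  | b : Let4
  | zero : Let4
  | one : Let4
  deriving DecidableEq, Fintype

/-- The grammar `S → a S 0 | a S 1 | b S 0 | b S 010 | b S 1100 | ε` with the single
nonterminal `S`. -/
def G5 : LinearGrammar Let4 where
  N := Unit
  finN := inferInstance
  start := ()
  rules := {((), [Let4.a], (), [Let4.zero]), ((), [Let4.a], (), [Let4.one]),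
    ((), [Let4.b], (), [Let4.zero]), ((), [Let4.b], (), [Let4.zero, Let4.one, Let4.zero]),
    ((), [Let4.b], (), [Let4.one, Let4.one, Let4.zero, Let4.zero])}
  term := {((), [])}

end Pool.Agent.Helper75.Lin
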