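import Mathlib

/-!
# The combinatorics of the reduction: offsets and windows
-/

namespace Pool.Agent.Helper75.Lin

/-- The move of an offset in a window with marked offsets `Z`. -/
def Tick (Z : ℕ → Prop) (o o' : ℕ) : Prop :=
  (¬ Z o ∧ o' = o) ∨ (¬ Z o ∧ Z (o + 1) ∧ ¬ Z (o + 2) ∧ o' = o + 2) ∨
    (¬ Z o ∧ ¬ Z (o + 1) ∧ Z (o + 2) ∧ Z (o + 3) ∧ o' = o + 3)

/-- Offsets reachable after `k` windows. -/
def RO (Z : ℕ → ℕ → Prop) : ℕ → ℕ → Prop
  | 0 => fun o => o = 0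
  | k + 1 => fun o' => ∃ o, RO Z k o ∧ Tick (Z k) o o'

theorem ro_succ {Z : ℕ → ℕ → Prop} {k : ℕ} {o' : ℕ} :
    RO Z (k + 1) o' ↔ ∃ o, RO Z k o ∧ Tick (Z k) o o' := Iff.rfl

theorem ro_bound {Z : ℕ → ℕ → Prop} {M : ℕ} (hZ : ∀ k z, Z k z → z + 1 ≤ M) :
    ∀ k o, RO Z k o → o ≤ M := by
  intro k
  induction k with
  | zero =>
    intro o h
    have : o = 0 := h
    omega
  | succ k ih =>
    rintro o' ⟨o, h, h2⟩
    have := ih o h
    rcases h2 with ⟨_, rfl⟩ | ⟨_, h3, _, rfl⟩ | ⟨_, _, h3, h4, rfl⟩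
    · exact this
    · have := hZ _ _ h3
      omega
    · have := hZ _ _ h4
      omega

/-- Registers (multiples of `6` given by `B`) and possibly one more offset `c`. -/
def Stt (B : ℕ → Prop) (T : Prop) (c : ℕ) (o : ℕ) : Prop :=
  (∃ x, o = 6 * x ∧ B x) ∨ (T ∧ o = c)

/-- Registers and possibly two more offsets. -/
def Stt2 (B : ℕ → Prop) (T : Prop) (c c' : ℕ) (o : ℕ) : Prop :=
  (∃ x, o = 6 * x ∧ B x) ∨ (T ∧ (o = c ∨ o = c'))

section windows

variable {Z : ℕ → ℕ → Prop} {k : ℕ} {B : ℕ → Prop} {T : Prop} {c c' r : ℕ}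

theorem w_idle {S : ℕ → Prop} (h : ∀ o, RO Z k o ↔ S o) (hZ : ∀ o, ¬ Z k o) :
    ∀ o, RO Z (k + 1) o ↔ S o := by
  intro o'
  rw [ro_succ, ← h]
  unfold Tick
  simp only [hZ, not_false_eq_true, true_and, false_and, or_false, and_false]
  constructor
  · rintro ⟨o, h1, rfl⟩; exact h1
  · intro h1; exact ⟨o', h1, rfl⟩

/-- A window creating a traveller at the register `r`. -/
theorem w_spawn (h : ∀ o, RO Z k o ↔ Stt B False c o) (hZ : ∀ o, Z k o ↔ o = 6 * r + 1) :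
    ∀ o, RO Z (k + 1) o ↔ Stt B (B r) (6 * r + 2) o := by
  intro o'
  rw [ro_succ]
  unfold Tick
  simp only [hZ, h, Stt, false_and, or_false]
  constructor
  · rintro ⟨o, ⟨x, rfl, hx⟩, h2⟩
    rcases h2 with ⟨_, rfl⟩ | ⟨_, h3, _, rfl⟩ | ⟨_, _, h3, h4, _⟩
    · exact Or.inl ⟨x, rfl, hx⟩
    · have : x = r := by omega
      subst this
      exact Or.inr ⟨hx, rfl⟩
    · omega
  · rintro (⟨x, rfl, hx⟩ | ⟨hr, rfl⟩)
    · exact ⟨6 * x, ⟨x, rfl, hx⟩, Or.inl ⟨by omega, rfl⟩⟩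
    · exact ⟨6 * r, ⟨r, rfl, hr⟩, Or.inr (Or.inl ⟨by omega, by omega, by omega, rfl⟩)⟩

/-- A window with a move of length two. -/
theorem w_move2 (hc : c % 6 = 2 ∨ c % 6 = 4) (h : ∀ o, RO Z k o ↔ Stt B T c o)
    (hZ : ∀ o, Z k o ↔ o = c + 1) :
    ∀ o, RO Z (k + 1) o ↔ Stt2 B T c (c + 2) o := by
  intro o'
  rw [ro_succ]
  unfold Tick
  simp only [hZ, h, Stt, Stt2]
  constructor
  · rintro ⟨o, ⟨x, rfl, hx⟩ | ⟨hT, rfl⟩, h2⟩
    · rcases h2 with ⟨_, rfl⟩ | ⟨_, h3, _, rfl⟩ | ⟨_, _, h3, h4, _⟩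
      · exact Or.inl ⟨x, rfl, hx⟩
      · omega
      · omega
    · rcases h2 with ⟨_, rfl⟩ | ⟨_, h3, _, rfl⟩ | ⟨_, _, h3, h4, _⟩
      · exact Or.inr ⟨hT, Or.inl rfl⟩
      · exact Or.inr ⟨hT, Or.inr rfl⟩
      · omega
  · rintro (⟨x, rfl, hx⟩ | ⟨hT, rfl | rfl⟩)
    · exact ⟨6 * x, Or.inl ⟨x, rfl, hx⟩, Or.inl ⟨by omega, rfl⟩⟩
    · exact ⟨_, Or.inr ⟨hT, rfl⟩, Or.inl ⟨by omega, rfl⟩⟩
    · exact ⟨c, Or.inr ⟨hT, rfl⟩, Or.inr (Or.inl ⟨by omega, rfl, by omega, rfl⟩)⟩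

/-- A window with a move of length three. -/
theorem w_move3 (hc : c % 6 = 2 ∨ c % 6 = 5) (h : ∀ o, RO Z k o ↔ Stt B T c o)
    (hZ : ∀ o, Z k o ↔ o = c + 2 ∨ o = c + 3) :
    ∀ o, RO Z (k + 1) o ↔ Stt2 B T c (c + 3) o := by
  intro o'
  rw [ro_succ]
  unfold Tick
  simp only [hZ, h, Stt, Stt2]
  constructor
  · rintro ⟨o, ⟨x, rfl, hx⟩ | ⟨hT, rfl⟩, h2⟩
    · rcases h2 with ⟨_, rfl⟩ | ⟨_, h3, _, rfl⟩ | ⟨_, _, h3, h4, _⟩
      · exact Or.inl ⟨x, rfl, hx⟩
      · omega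
      · omega
    · rcases h2 with ⟨_, rfl⟩ | ⟨_, h3, _, rfl⟩ | ⟨_, _, h3, h4, rfl⟩
      · exact Or.inr ⟨hT, Or.inl rfl⟩
      · omega
      · exact Or.inr ⟨hT, Or.inr rfl⟩
  · rintro (⟨x, rfl, hx⟩ | ⟨hT, rfl | rfl⟩)
    · exact ⟨6 * x, Or.inl ⟨x, rfl, hx⟩, Or.inl ⟨by omega, rfl⟩⟩
    · exact ⟨_, Or.inr ⟨hT, rfl⟩, Or.inl ⟨by omega, rfl⟩⟩
    · exact ⟨c, Or.inr ⟨hT, rfl⟩, Or.inr (Or.inr ⟨by omega, by omega, Or.inl rfl,
        Or.inr rfl, rfl⟩)⟩

/-- A window killing the offset `c`. -/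
theorem w_kill (hc : c % 6 ≠ 0 ∧ c % 6 ≠ 1) (hcc : c < c') (h : ∀ o, RO Z k o ↔ Stt2 B T c c' o)
    (hZ : ∀ o, Z k o ↔ o = c) :
    ∀ o, RO Z (k + 1) o ↔ Stt B T c' o := by
  intro o'
  rw [ro_succ]
  unfold Tick
  simp only [hZ, h, Stt, Stt2]
  constructor
  · rintro ⟨o, ⟨x, rfl, hx⟩ | ⟨hT, rfl | rfl⟩, h2⟩
    · rcases h2 with ⟨_, rfl⟩ | ⟨_, h3, _, rfl⟩ | ⟨_, _, h3, h4, _⟩
      · exact Or.inl ⟨x, rfl, hx⟩
      · omega
      · omega
    · rcases h2 with ⟨h0, rfl⟩ | ⟨h0, h3, _, rfl⟩ | ⟨h0, _, h3, h4, rfl⟩ <;>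
        exact absurd rfl h0
    · rcases h2 with ⟨_, rfl⟩ | ⟨_, h3, _, rfl⟩ | ⟨_, _, h3, h4, rfl⟩
      · exact Or.inr ⟨hT, rfl⟩
      · omega
      · omega
  · rintro (⟨x, rfl, hx⟩ | ⟨hT, rfl⟩)
    · exact ⟨6 * x, Or.inl ⟨x, rfl, hx⟩, Or.inl ⟨by omega, rfl⟩⟩
    · exact ⟨_, Or.inr ⟨hT, Or.inr rfl⟩, Or.inl ⟨by omega, rfl⟩⟩

end windows

/-- The marked offsets of the reduction: the window number `k` belongs to the quadruple
`(p, q, r, s)` with `k = ((p * N + q) * N + r) * 5 + s`. -/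
def ZZ (N : ℕ) (E : ℕ → ℕ → Prop) (k o : ℕ) : Prop :=
  (E (k / 5 / N / N) (k / 5 / N % N) ∧ k / 5 / N / N ≤ k / 5 % N ∧ k / 5 % N < k / 5 / N % N) ∧
  ((k % 5 = 0 ∧ k / 5 % N = k / 5 / N / N ∧ o = 6 * (k / 5 % N) + 1) ∨
    (k / 5 % N + 1 < k / 5 / N % N ∧
      ((k % 5 = 1 ∧ (o = 6 * (k / 5 % N) + 4 ∨ o = 6 * (k / 5 % N) + 5)) ∨
        (k % 5 = 2 ∧ o = 6 * (k / 5 % N) + 2) ∨
        (k % 5 = 3 ∧ (o = 6 * (k / 5 % N) + 7 ∨ o = 6 * (k / 5 % N) + 8)) ∨
        (k % 5 = 4 ∧ o = 6 * (k / 5 % N) + 5))) ∨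
    (k / 5 % N + 1 = k / 5 / N % N ∧
      ((k % 5 = 1 ∧ o = 6 * (k / 5 % N) + 3) ∨ (k % 5 = 2 ∧ o = 6 * (k / 5 % N) + 2) ∨
        (k % 5 = 3 ∧ o = 6 * (k / 5 % N) + 5) ∨ (k % 5 = 4 ∧ o = 6 * (k / 5 % N) + 4))))

/-- The same for given `(p, q, r, s)`. -/
def Zb (E : ℕ → ℕ → Prop) (p q r s o : ℕ) : Prop :=
  (E p q ∧ p ≤ r ∧ r < q) ∧
  ((s = 0 ∧ r = p ∧ o = 6 * r + 1) ∨
    (r + 1 < q ∧ ((s = 1 ∧ (o = 6 * r + 4 ∨ o = 6 * r + 5)) ∨ (s = 2 ∧ o = 6 * r + 2) ∨
        (s = 3 ∧ (o = 6 * r + 7 ∨ o = 6 * r + 8)) ∨ (s = 4 ∧ o = 6 * r + 5))) ∨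
    (r + 1 = q ∧ ((s = 1 ∧ o = 6 * r + 3) ∨ (s = 2 ∧ o = 6 * r + 2) ∨
        (s = 3 ∧ o = 6 * r + 5) ∨ (s = 4 ∧ o = 6 * r + 4))))

section rounds

variable {N : ℕ} {E : ℕ → ℕ → Prop}

theorem zz_eq {p q r s : ℕ} (hq : q < N) (hr : r < N) (hs : s < 5) (o : ℕ) :
    ZZ N E (((p * N + q) * N + r) * 5 + s) o ↔ Zb E p q r s o := by
  have h1 : (((p * N + q) * N + r) * 5 + s) / 5 = (p * N + q) * N + r := by omega
  have h2 : (((p * N + q) * N + r) * 5 + s) % 5 = s := by omega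
  have h3 : ((p * N + q) * N + r) / N = p * N + q := by
    rw [add_comm, Nat.add_mul_div_right _ _ (by omega), Nat.div_eq_of_lt hr, zero_add]
  have h4 : ((p * N + q) * N + r) % N = r := by
    rw [add_comm, Nat.add_mul_mod_self_right, Nat.mod_eq_of_lt hr]
  have h5 : (p * N + q) / N = p := by
    rw [add_comm, Nat.add_mul_div_right _ _ (by omega), Nat.div_eq_of_lt hq, zero_add]
  have h6 : (p * N + q) % N = q := by
    rw [add_comm, Nat.add_mul_mod_self_right, Nat.mod_eq_of_lt hq]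
  unfold ZZ Zb
  rw [h1, h2, h3, h4, h5, h6]

theorem zz_bound {k z : ℕ} (h : ZZ N E k z) : z + 1 ≤ 6 * (N - 1) := by
  unfold ZZ at h
  have h1 : k / 5 / N % N < N := by
    apply Nat.mod_lt
    by_contra h0
    have : N = 0 := by omega
    subst this
    simp at h
  omega

/-- One round of five windows. -/
theorem round {B : ℕ → Prop} {p q r : ℕ} (hq : q < N) (hr : r < N)
    (h : ∀ o, RO (ZZ N E) (((p * N + q) * N + r) * 5) o ↔
      Stt B ((E p q ∧ p < q ∧ B p) ∧ p < r) (6 * min r q + if r < q then 2 else 0) o) :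
    ∀ o, RO (ZZ N E) (((p * N + q) * N + (r + 1)) * 5) o ↔
      Stt B ((E p q ∧ p < q ∧ B p) ∧ p < r + 1)
        (6 * min (r + 1) q + if r + 1 < q then 2 else 0) o := by
  have hz : ∀ s, s < 5 → ∀ o, ZZ N E (((p * N + q) * N + r) * 5 + s) o ↔ Zb E p q r s o :=
    fun s hs o => zz_eq hq hr hs o
  generalize hK : ((p * N + q) * N + r) * 5 = K at h hz
  have hK' : ((p * N + q) * N + (r + 1)) * 5 = K + 5 := by rw [← hK]; ring
  rw [hK']
  by_cases hE : E p q ∧ p ≤ r ∧ r < q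
  · -- the active rounds
    obtain ⟨hE1, hpr, hrq⟩ := hE
    have hpq : p < q := by omega
    rw [if_pos hrq, min_eq_left (by omega)] at h
    simp only [hE1, hpq, true_and] at h ⊢
    -- after the first window
    have a1 : ∀ o, RO (ZZ N E) (K + 1) o ↔ Stt B (B p) (6 * r + 2) o := by
      rcases Nat.lt_or_ge p r with h1 | h1
      · refine w_idle (S := Stt B (B p) (6 * r + 2)) ?_ ?_
        · simpa [h1] using h
        · intro o
          have := hz 0 (by omega) o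
          rw [add_zero] at this
          rw [this]
          unfold Zb
          omega
      · have h2 : p = r := by omega
        subst h2
        refine w_spawn (c := 6 * p + 2) ?_ ?_
        · simpa using h
        · intro o
          have := hz 0 (by omega) o
          rw [add_zero] at this
          rw [this]
          unfold Zb
          simp only [hE1, true_and]
          omega
    have hz1 := hz 1 (by omega)
    have hz2 := hz 2 (by omega)
    have hz3 := hz 3 (by omega)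
    have hz4 := hz 4 (by omega)
    rcases Nat.lt_or_ge (r + 1) q with hr1 | hr1
    · rw [if_pos hr1, min_eq_left (by omega)]
      have a2 := w_move3 (by omega) a1 (fun o => by
        rw [hz1]; unfold Zb; simp only [hE1, true_and]; omega)
      have a3 := w_kill (by omega) (by omega) a2 (fun o => by
        rw [hz2]; unfold Zb; simp only [hE1, true_and]; omega)
      have a4 := w_move3 (by omega) a3 (fun o => by
        rw [hz3]; unfold Zb; simp only [hE1, true_and]; omega)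
      have a5 := w_kill (by omega) (by omega) a4 (fun o => by
        rw [hz4]; unfold Zb; simp only [hE1, true_and]; omega)
      intro o
      rw [a5]
      have e1 : 6 * r + 2 + 3 + 3 = 6 * (r + 1) + 2 := by ring
      have e2 : p < r + 1 := by omega
      rw [e1]
      simp only [e2, and_true]
    · rw [if_neg (by omega), min_eq_right (by omega)]
      have a2 := w_move2 (by omega) a1 (fun o => by
        rw [hz1]; unfold Zb; simp only [hE1, true_and]; omega)
      have a3 := w_kill (by omega) (by omega) a2 (fun o => by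
        rw [hz2]; unfold Zb; simp only [hE1, true_and]; omega)
      have a4 := w_move2 (by omega) a3 (fun o => by
        rw [hz3]; unfold Zb; simp only [hE1, true_and]; omega)
      have a5 := w_kill (by omega) (by omega) a4 (fun o => by
        rw [hz4]; unfold Zb; simp only [hE1, true_and]; omega)
      intro o
      rw [a5]
      have e1 : 6 * r + 2 + 2 + 2 = 6 * q + 0 := by omega
      have e2 : p < r + 1 := by omega
      rw [e1]
      simp only [e2, and_true]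
  · have hno : ∀ s, s < 5 → ∀ o, ¬ ZZ N E (K + s) o := by
      intro s hs o hh
      rw [hz s hs] at hh
      exact hE hh.1
    have a5 := w_idle (w_idle (w_idle (w_idle (w_idle h (by simpa using hno 0 (by omega)))
      (hno 1 (by omega))) (hno 2 (by omega))) (hno 3 (by omega))) (hno 4 (by omega))
    intro o
    rw [show K + 5 = K + 1 + 1 + 1 + 1 + 1 by ring, a5]
    by_cases hE1 : E p q ∧ p < q ∧ B p
    · have : r < p ∨ q ≤ r := by
        by_contra h0
        exact hE ⟨hE1.1, by omega, by omega⟩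
      rcases this with h1 | h1
      · have e1 : ¬ p < r := by omega
        have e2 : ¬ p < r + 1 := by omega
        simp only [Stt, e1, e2, and_false, false_and]
      · have e1 : p < r := by omega
        have e2 : p < r + 1 := by omega
        simp only [Stt, e1, e2, and_true]
        rw [if_neg (by omega), if_neg (by omega), min_eq_right h1, min_eq_right (by omega)]
    · simp only [Stt, hE1, false_and]

/-- The vertices found after the treatment of the first `m` pairs. -/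
def Bs (N : ℕ) (E : ℕ → ℕ → Prop) : ℕ → ℕ → Prop
  | 0 => fun x => x = 0
  | m + 1 => fun x => Bs N E m x ∨ (x = m % N ∧ E (m / N) (m % N) ∧ m / N < m % N ∧
      Bs N E m (m / N))

theorem ro_pairs (hN : 0 < N) (m : ℕ) : ∀ o, RO (ZZ N E) (m * N * 5) o ↔
    ∃ x, o = 6 * x ∧ Bs N E m x := by
  induction m with
  | zero =>
    intro o
    rw [zero_mul, zero_mul]
    constructor
    · intro h
      have : o = 0 := h
      exact ⟨0, by omega, rfl⟩
    · rintro ⟨x, rfl, h⟩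
      have : x = 0 := h
      subst this
      rfl
  | succ m ih =>
    set p := m / N with hp
    set q := m % N with hq'
    have hq : q < N := Nat.mod_lt _ hN
    have hm : p * N + q = m := by
      rw [hp, hq', mul_comm]
      exact Nat.div_add_mod m N
    have key : ∀ r, r ≤ N → ∀ o, RO (ZZ N E) (((p * N + q) * N + r) * 5) o ↔
        Stt (Bs N E m) ((E p q ∧ p < q ∧ Bs N E m p) ∧ p < r)
          (6 * min r q + if r < q then 2 else 0) o := by
      intro r
      induction r with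
      | zero =>
        intro _ o
        rw [hm, add_zero, ih o]
        simp [Stt]
      | succ r ihr =>
        intro hr
        exact round hq (by omega) (ihr (by omega))
    intro o
    have h1 := key N le_rfl o
    rw [show ((p * N + q) * N + N) * 5 = (m + 1) * N * 5 by rw [hm]; ring] at h1
    rw [h1, if_neg (by omega), min_eq_right (by omega)]
    unfold Stt
    constructor
    · rintro (⟨x, rfl, hx⟩ | ⟨⟨hT, _⟩, rfl⟩)
      · exact ⟨x, rfl, Or.inl hx⟩
      · exact ⟨q, by ring, Or.inr ⟨rfl, hT⟩⟩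
    · rintro ⟨x, rfl, hx | ⟨hx, hT⟩⟩
      · exact Or.inl ⟨x, rfl, hx⟩
      · subst hx
        exact Or.inr ⟨⟨hT, by have := hT.2.1; omega⟩, by ring⟩

/-- Reachability of the last vertex of a directed acyclic graph with vertices `0, ..., N - 1`. -/
def DagStep (N : ℕ) (E : ℕ → ℕ → Prop) (p q : ℕ) : Prop := p < q ∧ q < N ∧ E p q

theorem bs_mono {m m' : ℕ} (h : m ≤ m') {x : ℕ} (hx : Bs N E m x) : Bs N E m' x := by
  induction m' with
  | zero =>
    have : m = 0 := by omega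
    subst this
    exact hx
  | succ m' ih =>
    rcases Nat.lt_or_ge m (m' + 1) with h1 | h1
    · exact Or.inl (ih (by omega))
    · have : m = m' + 1 := by omega
      subst this
      exact hx

theorem reach_of_bs (hN : 0 < N) (m : ℕ) : ∀ x, Bs N E m x →
    Relation.ReflTransGen (DagStep N E) 0 x := by
  induction m with
  | zero =>
    intro x h
    have : x = 0 := h
    subst this
    exact Relation.ReflTransGen.refl
  | succ m ih =>
    rintro x (h | ⟨rfl, h1, h2, h3⟩)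
    · exact ih x h
    · exact (ih _ h3).tail ⟨h2, Nat.mod_lt _ hN, h1⟩

theorem bs_of_reach {x : ℕ} (h : Relation.ReflTransGen (DagStep N E) 0 x) :
    Bs N E (x * N) x := by
  induction h with
  | refl => rw [zero_mul]; rfl
  | @tail y x _ h ih =>
    obtain ⟨h1, h2, h3⟩ := h
    have h4 : Bs N E (y * N + x) y := bs_mono (Nat.le_add_right _ _) ih
    have e1 : (y * N + x) / N = y := by
      rw [add_comm, Nat.add_mul_div_right _ _ (by omega), Nat.div_eq_of_lt h2, zero_add]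
    have e2 : (y * N + x) % N = x := by
      rw [add_comm, Nat.add_mul_mod_self_right, Nat.mod_eq_of_lt h2]
    have h5 : Bs N E (y * N + x + 1) x := by
      refine Or.inr ?_
      rw [e1, e2]
      exact ⟨rfl, h3, h1, h4⟩
    refine bs_mono ?_ h5
    nlinarith

theorem ro_final (hN : 0 < N) : RO (ZZ N E) (N * N * 5 * N) (6 * (N - 1)) ↔
    Relation.ReflTransGen (DagStep N E) 0 (N - 1) := by
  rw [show N * N * 5 * N = (N * N) * N * 5 by ring, ro_pairs hN]
  constructor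
  · rintro ⟨x, hx, h⟩
    have : x = N - 1 := by omega
    subst this
    exact reach_of_bs hN _ _ h
  · intro h
    exact ⟨N - 1, rfl, bs_mono (Nat.mul_le_mul_right _ (by omega)) (bs_of_reach h)⟩

end rounds

end Pool.Agent.Helper75.Lin
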