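import Pool.Agent.Helper75.Lin.Defs
import Pool.Agent.Helper75.Lin.Gadget
import Pool.Agent.Helper38.LinTwo.Hard

/-!
# Reachability in acyclic graphs reduces to the grammar with five recursive rules
-/

namespace Pool.Agent.Helper75.Lin

open Classical Pool.Agent.Helper38.LinL Pool.Agent.Helper38.LinL.LinearGrammar
open Pool.Agent.Helper38.LinTwo (LStep pairD_iff_loop mt_one)

set_option linter.unusedSimpArgs false
set_option linter.unusedVariables false
set_option linter.unusedSectionVars false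

section g5

theorem mt_three {α : Type} {c : ℕ → Option α} {x y z : α} :
    Mt c [x, y, z] ↔ c 0 = some x ∧ c 1 = some y ∧ c 2 = some z := by
  constructor
  · intro h; exact ⟨h 0 (by simp), h 1 (by simp), h 2 (by simp)⟩
  · rintro ⟨h0, h1, h2⟩ s hs
    simp only [List.length_cons, List.length_nil] at hs
    have : s = 0 ∨ s = 1 ∨ s = 2 := by omega
    rcases this with rfl | rfl | rfl
    · simpa using h0
    · simpa using h1
    · simpa using h2

theorem mt_four {α : Type} {c : ℕ → Option α} {x y z t : α} :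
    Mt c [x, y, z, t] ↔ c 0 = some x ∧ c 1 = some y ∧ c 2 = some z ∧ c 3 = some t := by
  constructor
  · intro h; exact ⟨h 0 (by simp), h 1 (by simp), h 2 (by simp), h 3 (by simp)⟩
  · rintro ⟨h0, h1, h2, h3⟩ s hs
    simp only [List.length_cons, List.length_nil] at hs
    have : s = 0 ∨ s = 1 ∨ s = 2 ∨ s = 3 := by omega
    rcases this with rfl | rfl | rfl | rfl
    · simpa using h0
    · simpa using h1
    · simpa using h2
    · simpa using h3

theorem mem_rules {A B : G5.N} {u v : List Let4} : (A, u, B, v) ∈ G5.rules ↔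
    (u = [Let4.a] ∧ v = [Let4.zero]) ∨ (u = [Let4.a] ∧ v = [Let4.one]) ∨
      (u = [Let4.b] ∧ v = [Let4.zero]) ∨ (u = [Let4.b] ∧ v = [Let4.zero, Let4.one, Let4.zero]) ∨
      (u = [Let4.b] ∧ v = [Let4.one, Let4.one, Let4.zero, Let4.zero]) := by
  change (((), u, (), v) : Unit × List Let4 × Unit × List Let4) ∈
    ({((), [Let4.a], (), [Let4.zero]), ((), [Let4.a], (), [Let4.one]),
      ((), [Let4.b], (), [Let4.zero]), ((), [Let4.b], (), [Let4.zero, Let4.one, Let4.zero]),
      ((), [Let4.b], (), [Let4.one, Let4.one, Let4.zero, Let4.zero])} :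
      Finset (Unit × List Let4 × Unit × List Let4)) ↔ _
  simp only [Finset.mem_insert, Finset.mem_singleton, Prod.mk.injEq, true_and]

theorem mem_term {B : G5.N} {t : List Let4} : (B, t) ∈ G5.term ↔ t = [] := by
  change ((B, t) : Unit × List Let4) ∈ ({((), [])} : Finset (Unit × List Let4)) ↔ _
  simp only [Finset.mem_singleton, Prod.mk.injEq]
  exact ⟨fun h => h.2, fun h => ⟨rfl, h⟩⟩

theorem lstep_G5 {cL cR : ℕ → Option Let4} {c c' : ℕ × ℕ} :
    LStep G5 G5.start cL cR c c' ↔ c'.1 = c.1 + 1 ∧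
      ((cL c.1 = some Let4.a ∧ (cR c.2 = some Let4.zero ∨ cR c.2 = some Let4.one) ∧
        c'.2 = c.2 + 1) ∨
      (cL c.1 = some Let4.b ∧ cR c.2 = some Let4.zero ∧ c'.2 = c.2 + 1) ∨
      (cL c.1 = some Let4.b ∧ cR c.2 = some Let4.zero ∧ cR (c.2 + 1) = some Let4.one ∧
        cR (c.2 + 2) = some Let4.zero ∧ c'.2 = c.2 + 3) ∨
      (cL c.1 = some Let4.b ∧ cR c.2 = some Let4.zero ∧ cR (c.2 + 1) = some Let4.zero ∧
        cR (c.2 + 2) = some Let4.one ∧ cR (c.2 + 3) = some Let4.one ∧ c'.2 = c.2 + 4)) := by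
  obtain ⟨p, q⟩ := c
  obtain ⟨p', q'⟩ := c'
  have r3 : [Let4.zero, Let4.one, Let4.zero].reverse = [Let4.zero, Let4.one, Let4.zero] := rfl
  have r4 : [Let4.one, Let4.one, Let4.zero, Let4.zero].reverse =
    [Let4.zero, Let4.zero, Let4.one, Let4.one] := rfl
  constructor
  · rintro ⟨u, v, hr, hc, h1, h2⟩
    have hr' := mem_rules.1 hr
    simp only [Prod.mk.injEq] at hc
    rcases hr' with ⟨rfl, rfl⟩ | ⟨rfl, rfl⟩ | ⟨rfl, rfl⟩ | ⟨rfl, rfl⟩ | ⟨rfl, rfl⟩
    · simp only [List.reverse_singleton, mt_one] at h1 h2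
      simp at hc h1 h2 ⊢
      exact ⟨hc.1, Or.inl ⟨h1, Or.inl h2, hc.2⟩⟩
    · simp only [List.reverse_singleton, mt_one] at h1 h2
      simp at hc h1 h2 ⊢
      exact ⟨hc.1, Or.inl ⟨h1, Or.inr h2, hc.2⟩⟩
    · simp only [List.reverse_singleton, mt_one] at h1 h2
      simp at hc h1 h2 ⊢
      exact ⟨hc.1, Or.inr (Or.inl ⟨h1, h2, hc.2⟩)⟩
    · rw [r3] at h2
      simp only [mt_one, mt_three] at h1 h2
      simp at hc h1 h2 ⊢
      exact ⟨hc.1, Or.inr (Or.inr (Or.inl ⟨h1, h2.1, h2.2.1, h2.2.2, hc.2⟩))⟩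
    · rw [r4] at h2
      simp only [mt_one, mt_four] at h1 h2
      simp at hc h1 h2 ⊢
      exact ⟨hc.1, Or.inr (Or.inr (Or.inr ⟨h1, h2.1, h2.2.1, h2.2.2.1, h2.2.2.2, hc.2⟩))⟩
  · rintro ⟨hp, h⟩
    simp only at hp h
    subst hp
    rcases h with ⟨h1, h2 | h2, rfl⟩ | ⟨h1, h2, rfl⟩ | ⟨h1, h2, h3, h4, rfl⟩ |
      ⟨h1, h2, h3, h4, h5, rfl⟩
    · exact ⟨[Let4.a], [Let4.zero], mem_rules.2 (by simp), rfl, mt_one.2 (by simpa using h1),
        mt_one.2 (by simpa using h2)⟩
    · exact ⟨[Let4.a], [Let4.one], mem_rules.2 (by simp), rfl, mt_one.2 (by simpa using h1),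
        mt_one.2 (by simpa using h2)⟩
    · exact ⟨[Let4.b], [Let4.zero], mem_rules.2 (by simp), rfl, mt_one.2 (by simpa using h1),
        mt_one.2 (by simpa using h2)⟩
    · exact ⟨[Let4.b], [Let4.zero, Let4.one, Let4.zero], mem_rules.2 (by simp), rfl,
        mt_one.2 (by simpa using h1),
        mt_three.2 ⟨by simpa using h2, by simpa using h3, by simpa using h4⟩⟩
    · exact ⟨[Let4.b], [Let4.one, Let4.one, Let4.zero, Let4.zero], mem_rules.2 (by simp), rfl,
        mt_one.2 (by simpa using h1),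
        mt_four.2 ⟨by simpa using h2, by simpa using h3, by simpa using h4, by simpa using h5⟩⟩

theorem letters {A B : G5.N} {u v : List Let4} (h : G5.Derives A u B v) :
    (∀ x ∈ u, x = Let4.a ∨ x = Let4.b) ∧ (∀ x ∈ v, x = Let4.zero ∨ x = Let4.one) := by
  induction h with
  | refl => exact ⟨by simp, by simp⟩
  | @step u B v u' C v' _ hr ih =>
    have h1 : (∀ x ∈ u', x = Let4.a ∨ x = Let4.b) ∧ (∀ x ∈ v', x = Let4.zero ∨ x = Let4.one) := by
      rcases mem_rules.1 hr with ⟨rfl, rfl⟩ | ⟨rfl, rfl⟩ | ⟨rfl, rfl⟩ | ⟨rfl, rfl⟩ | ⟨rfl, rfl⟩ <;>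
        simp
    refine ⟨fun x hx => ?_, fun x hx => ?_⟩
    · rcases List.mem_append.1 hx with hx | hx
      · exact ih.1 x hx
      · exact h1.1 x hx
    · rcases List.mem_append.1 hx with hx | hx
      · exact h1.2 x hx
      · exact ih.2 x hx

end g5

section hw

/-- The word of the reduction. -/
noncomputable def hw (K D Y : ℕ) (Z : ℕ → Prop) : List Let4 :=
  (List.range (K * D + Y)).map fun m =>
    if m < K * D then (if m % D = 0 then Let4.b else Let4.a) else
      if Z (K * D + Y - 1 - m) then Let4.one else Let4.zero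

variable {K D Y : ℕ} {Z : ℕ → Prop}

theorem hw_length : (hw K D Y Z).length = K * D + Y := by simp [hw]

theorem hw_get {m : ℕ} : (hw K D Y Z)[m]? = if m < K * D + Y then
    some (if m < K * D then (if m % D = 0 then Let4.b else Let4.a) else
      if Z (K * D + Y - 1 - m) then Let4.one else Let4.zero) else none := by
  unfold hw
  rw [List.getElem?_map]
  split_ifs with h
  all_goals first
    | (rw [List.getElem?_range h]; simp_all)
    | (rw [List.getElem?_eq_none (by simpa using h)]; rfl)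

theorem hw_left {m : ℕ} (h : m < K * D) :
    (hw K D Y Z)[m]? = some (if m % D = 0 then Let4.b else Let4.a) := by
  rw [hw_get, if_pos (by omega), if_pos h]

theorem hw_right {q : ℕ} (h : q < Y) :
    (hw K D Y Z)[K * D + Y - 1 - q]? = some (if Z q then Let4.one else Let4.zero) := by
  rw [hw_get, if_pos (by omega), if_neg (by omega)]
  rw [show K * D + Y - 1 - (K * D + Y - 1 - q) = q by omega]

theorem hw_right' (h0 : 0 < K * D) {q : ℕ} (h : Y ≤ q) :
    (hw K D Y Z)[K * D + Y - 1 - q]? ≠ some Let4.zero ∧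
    (hw K D Y Z)[K * D + Y - 1 - q]? ≠ some Let4.one := by
  rw [hw_get, if_pos (by omega)]
  have h2 : K * D + Y - 1 - q < K * D := by omega
  rw [if_pos h2]
  constructor <;>
  · intro h1
    have h3 := Option.some.inj h1
    split_ifs at h3

theorem hw_mem (h0 : 0 < K * D) : hw K D Y Z ∈ G5.language ↔
    Relation.ReflTransGen (LStep G5 G5.start (fun t => (hw K D Y Z)[t]?)
      (fun t => (hw K D Y Z)[K * D + Y - 1 - t]?)) (0, 0) (K * D, Y) := by
  have hA : ∀ u B v, (G5.start, u, B, v) ∈ G5.rules → (∃ x y, G5.Derives B x G5.start y) →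
      B = G5.start := fun u B v _ _ => rfl
  rw [← pairD_iff_loop hA]
  set w := hw K D Y Z with hw'
  have hwl : w.length = K * D + Y := hw_length
  have hs : Spn w 0 w.length w := ⟨by simp, le_rfl, fun s hs => by simp⟩
  constructor
  · rintro ⟨u, B, v, t, h1, h2, h3⟩
    have ht : t = [] := mem_term.1 h2
    subst ht
    rw [List.append_nil] at h3
    have hl := congrArg List.length h3
    simp only [List.length_append, hwl] at hl
    have hlet := letters h1
    have hu1 : u.length ≤ K * D := by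
      by_contra hcon
      push Not at hcon
      have h4 : w[K * D]? = u[K * D]? := by
        rw [h3, List.getElem?_append_left hcon]
      rw [List.getElem?_eq_getElem hcon] at h4
      have h5 := hlet.1 _ (List.getElem_mem hcon)
      rw [hw', hw_get, if_pos (by omega), if_neg (by omega)] at h4
      rw [← Option.some.inj h4] at h5
      split_ifs at h5 <;> simp at h5
    have hu2 : K * D ≤ u.length := by
      by_contra hcon
      push Not at hcon
      have h4 : w[u.length]? = v[0]? := by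
        rw [h3, List.getElem?_append_right le_rfl]
        simp
      have hv0 : 0 < v.length := by omega
      rw [List.getElem?_eq_getElem hv0] at h4
      have h5 := hlet.2 _ (List.getElem_mem hv0)
      rw [hw', hw_left hcon] at h4
      rw [← Option.some.inj h4] at h5
      split_ifs at h5 <;> simp at h5
    have hu : u.length = K * D := by omega
    have hv : v.length = Y := by omega
    rw [show Spn w 0 w.length w ↔ Spn w 0 w.length (u ++ v) by rw [← h3],
      spn_append] at hs
    refine ⟨u, v, h1, hu, hv, ?_, ?_⟩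
    · simpa using hs.1.2.2
    · have h5 := hs.2
      simp only [zero_add, hu, hwl] at h5
      exact (spn_reverse (w := w) (i := K * D) (j := K * D + Y) (v := v)
        (by omega) (by omega)).2 h5
  · rintro ⟨u, v, h1, hu, hv, h3, h4⟩
    refine ⟨u, G5.start, v, [], h1, mem_term.2 rfl, ?_⟩
    have h5 : Spn w (K * D) (K * D + Y) v := by
      rw [← spn_reverse (by omega) (by omega)]
      exact h4
    have h6 : Spn w 0 (K * D + Y) (u ++ v) := by
      rw [spn_append]
      simp only [zero_add, hu]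
      exact ⟨⟨by omega, by omega, by simpa using h3⟩, h5⟩
    rw [List.append_nil]
    refine Mt.inj hs.2.2 h6.2.2 ?_
    have := h6.1
    omega

/-- Positions reachable after reading `p` letters on the left. -/
def Rn (D : ℕ) (Z : ℕ → Prop) : ℕ → ℕ → Prop
  | 0 => fun q => q = 0
  | p + 1 => fun q' => ∃ q, Rn D Z p q ∧
      ∃ d, (if p % D = 0 then Tick Z q d else d = q) ∧ q' = d + 1

theorem rn_iff (h0 : 0 < K * D) (p : ℕ) (hp : p ≤ K * D) : ∀ q,
    Relation.ReflTransGen (LStep G5 G5.start
      (fun t => (hw K D Y Z)[t]?) (fun t => (hw K D Y Z)[K * D + Y - 1 - t]?)) (0, 0) (p, q) ↔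
      (q ≤ Y ∧ Rn D Z p q) := by
  induction p with
  | zero =>
    intro q
    constructor
    · intro h
      rcases Relation.ReflTransGen.cases_tail h with h | ⟨c, _, h⟩
      · simp only [Prod.mk.injEq, true_and] at h
        exact ⟨by omega, h⟩
      · rw [lstep_G5] at h
        have := h.1
        simp at this
    · rintro ⟨_, h⟩
      have : q = 0 := h
      subst this
      exact Relation.ReflTransGen.refl
  | succ p ih =>
    intro q'
    have hpl := hw_left (K := K) (D := D) (Y := Y) (Z := Z) (m := p) (by omega)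
    constructor
    · intro hh
      rcases Relation.ReflTransGen.cases_tail hh with h | ⟨⟨p0, q⟩, h0', h⟩
      · simp at h
      · rw [lstep_G5] at h
        obtain ⟨hp0, h⟩ := h
        simp only at hp0 h
        have : p0 = p := by omega
        subst this
        obtain ⟨hq, hR⟩ := (ih (by omega) q).1 h0'
        have hqY : ∀ q, (hw K D Y Z)[K * D + Y - 1 - q]? = some Let4.zero → q < Y ∧ ¬ Z q := by
          intro q h
          rcases Nat.lt_or_ge q Y with h1 | h1
          · refine ⟨h1, ?_⟩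
            rw [hw_right h1] at h
            intro hZ
            simp [hZ] at h
          · exact absurd h (hw_right' h0 h1).1
        have hqY1 : ∀ q, (hw K D Y Z)[K * D + Y - 1 - q]? = some Let4.one → q < Y ∧ Z q := by
          intro q h
          rcases Nat.lt_or_ge q Y with h1 | h1
          · refine ⟨h1, ?_⟩
            rw [hw_right h1] at h
            by_contra hZ
            simp [hZ] at h
          · exact absurd h (hw_right' h0 h1).2
        rw [hpl] at h
        by_cases hD : p0 % D = 0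
        · simp only [hD, if_true, Option.some.injEq, reduceCtorEq, false_and, false_or,
            true_and] at h
          rcases h with ⟨h1, rfl⟩ | ⟨h1, h2, h3, rfl⟩ | ⟨h1, h2, h3, h4, rfl⟩
          · refine ⟨(hqY q h1).1, q, hR, q, ?_, rfl⟩
            rw [if_pos hD]
            exact Or.inl ⟨(hqY q h1).2, rfl⟩
          · refine ⟨(hqY _ h3).1, q, hR, q + 2, ?_, rfl⟩
            rw [if_pos hD]
            exact Or.inr (Or.inl ⟨(hqY q h1).2, (hqY1 _ h2).2, (hqY _ h3).2, rfl⟩)
          · refine ⟨(hqY1 _ h4).1, q, hR, q + 3, ?_, rfl⟩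
            rw [if_pos hD]
            exact Or.inr (Or.inr ⟨(hqY q h1).2, (hqY _ h2).2, (hqY1 _ h3).2, (hqY1 _ h4).2, rfl⟩)
        · simp only [hD, if_false, Option.some.injEq, reduceCtorEq, false_and, or_false,
            true_and] at h
          obtain ⟨h1, rfl⟩ := h
          refine ⟨?_, q, hR, q, ?_, rfl⟩
          · rcases h1 with h1 | h1
            · exact (hqY q h1).1
            · exact (hqY1 q h1).1
          · rw [if_neg hD]
    · rintro ⟨hY, q, hR, d, h, rfl⟩
      by_cases hD : p % D = 0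
      · rw [if_pos hD] at h
        rcases h with ⟨h1, rfl⟩ | ⟨h1, h2, h3, rfl⟩ | ⟨h1, h2, h3, h4, rfl⟩
        · refine ((ih (by omega) d).2 ⟨by omega, hR⟩).tail (lstep_G5.2 ⟨rfl, ?_⟩)
          refine Or.inr (Or.inl ⟨?_, ?_, rfl⟩)
          · simp only [hpl, hD, if_true]
          · simp only [hw_right (show d < Y by omega), h1, if_false]
        · refine ((ih (by omega) q).2 ⟨by omega, hR⟩).tail (lstep_G5.2 ⟨rfl, ?_⟩)
          refine Or.inr (Or.inr (Or.inl ⟨?_, ?_, ?_, ?_, rfl⟩))
          · simp only [hpl, hD, if_true]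
          · simp only [hw_right (show q < Y by omega), h1, if_false]
          · simp only [hw_right (show q + 1 < Y by omega), h2, if_true]
          · simp only [hw_right (show q + 2 < Y by omega), h3, if_false]
        · refine ((ih (by omega) q).2 ⟨by omega, hR⟩).tail (lstep_G5.2 ⟨rfl, ?_⟩)
          refine Or.inr (Or.inr (Or.inr ⟨?_, ?_, ?_, ?_, ?_, rfl⟩))
          · simp only [hpl, hD, if_true]
          · simp only [hw_right (show q < Y by omega), h1, if_false]
          · simp only [hw_right (show q + 1 < Y by omega), h2, if_false]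
          · simp only [hw_right (show q + 2 < Y by omega), h3, if_true]
          · simp only [hw_right (show q + 3 < Y by omega), h4, if_true]
      · rw [if_neg hD] at h
        subst h
        refine ((ih (by omega) d).2 ⟨by omega, hR⟩).tail (lstep_G5.2 ⟨rfl, Or.inl ⟨?_, ?_, rfl⟩⟩)
        · simp only [hpl, hD, if_false]
        · simp only [hw_right (show d < Y by omega)]
          by_cases hZ : Z d
          · simp [hZ]
          · simp [hZ]

theorem rn_block (k : ℕ) : ∀ i, i < D → ∀ q', Rn D Z (k * D + (i + 1)) q' ↔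
    ∃ q, Rn D Z (k * D) q ∧ ∃ d, Tick Z q d ∧ q' = d + (i + 1) := by
  intro i
  induction i with
  | zero =>
    intro hD q'
    show (∃ q, Rn D Z (k * D) q ∧ ∃ d, (if k * D % D = 0 then _ else _) ∧ _) ↔ _
    simp only [Nat.mul_mod_left, if_true]
  | succ i ih =>
    intro hD q'
    have h1 : (k * D + (i + 1)) % D = i + 1 := by
      rw [add_comm, Nat.add_mul_mod_self_right, Nat.mod_eq_of_lt hD]
    show (∃ q, Rn D Z (k * D + (i + 1)) q ∧
      ∃ d, (if (k * D + (i + 1)) % D = 0 then _ else _) ∧ _) ↔ _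
    rw [h1]
    simp only [Nat.add_one_ne_zero, if_false]
    constructor
    · rintro ⟨q, hq, d, rfl, rfl⟩
      rw [ih (by omega)] at hq
      obtain ⟨q0, h2, d0, h3, rfl⟩ := hq
      exact ⟨q0, h2, d0, h3, by omega⟩
    · rintro ⟨q0, h2, d0, h3, rfl⟩
      exact ⟨d0 + (i + 1), (ih (by omega) _).2 ⟨q0, h2, d0, h3, rfl⟩, _, rfl, by omega⟩

/-- From positions to offsets. -/
theorem rn_ro {Zo : ℕ → ℕ → Prop} (hb : ∀ k o, RO Zo k o → o + 4 ≤ D) (k : ℕ) :
    ∀ q, Rn D (fun i => Zo (i / D) (i % D)) (k * D) q ↔ ∃ o, RO Zo k o ∧ q = k * D + o := by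
  have hD : 0 < D := by
    have := hb 0 0 rfl
    omega
  induction k with
  | zero =>
    intro q
    rw [zero_mul]
    constructor
    · intro h
      have : q = 0 := h
      subst this
      exact ⟨0, rfl, rfl⟩
    · rintro ⟨o, h, rfl⟩
      have : o = 0 := h
      subst this
      rfl
  | succ k ih =>
    intro q'
    have h1 := rn_block (D := D) (Z := fun i => Zo (i / D) (i % D)) k (D - 1) (by omega) q'
    rw [show k * D + (D - 1 + 1) = (k + 1) * D by
      rw [Nat.sub_add_cancel hD]; ring] at h1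
    rw [h1, show D - 1 + 1 = D by omega]
    have hz : ∀ o, o < D → (Zo ((k * D + o) / D) ((k * D + o) % D) ↔ Zo k o) := by
      intro o ho
      have e1 : (k * D + o) / D = k := by
        rw [add_comm, Nat.add_mul_div_right _ _ hD, Nat.div_eq_of_lt ho, zero_add]
      have e2 : (k * D + o) % D = o := by
        rw [add_comm, Nat.add_mul_mod_self_right, Nat.mod_eq_of_lt ho]
      rw [e1, e2]
    have ht : ∀ o, o + 4 ≤ D → ∀ d, (Tick (fun i => Zo (i / D) (i % D)) (k * D + o) d ↔
        ∃ o', Tick (Zo k) o o' ∧ d = k * D + o') := by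
      intro o ho d
      unfold Tick
      simp only [add_assoc]
      rw [hz o (by omega), hz (o + 1) (by omega), hz (o + 2) (by omega), hz (o + 3) (by omega)]
      constructor
      · rintro (⟨h1, rfl⟩ | ⟨h1, h2, h3, rfl⟩ | ⟨h1, h2, h3, h4, rfl⟩)
        · exact ⟨o, Or.inl ⟨h1, rfl⟩, rfl⟩
        · exact ⟨o + 2, Or.inr (Or.inl ⟨h1, h2, h3, rfl⟩), rfl⟩
        · exact ⟨o + 3, Or.inr (Or.inr ⟨h1, h2, h3, h4, rfl⟩), rfl⟩
      · rintro ⟨o', h1 | h1 | h1, rfl⟩
        · obtain ⟨h1, rfl⟩ := h1
          exact Or.inl ⟨h1, rfl⟩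
        · obtain ⟨h1, h2, h3, rfl⟩ := h1
          exact Or.inr (Or.inl ⟨h1, h2, h3, rfl⟩)
        · obtain ⟨h1, h2, h3, h4, rfl⟩ := h1
          exact Or.inr (Or.inr ⟨h1, h2, h3, h4, rfl⟩)
    constructor
    · rintro ⟨q, hq, d, hd, rfl⟩
      obtain ⟨o, ho, rfl⟩ := (ih q).1 hq
      obtain ⟨o', h2, rfl⟩ := (ht o (hb _ _ ho) d).1 hd
      exact ⟨o', ⟨o, ho, h2⟩, by ring⟩
    · rintro ⟨o', ⟨o, ho, h2⟩, rfl⟩
      exact ⟨k * D + o, (ih _).2 ⟨o, ho, rfl⟩, k * D + o', (ht o (hb _ _ ho) _).2 ⟨o', h2, rfl⟩,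
        by ring⟩

/-- The word for the acyclic graph with edges `E p q`, `p < q < N`. -/
noncomputable def dagWord (N : ℕ) (E : ℕ → ℕ → Prop) : List Let4 :=
  hw (N * N * 5 * N) (6 * N) (N * N * 5 * N * (6 * N) + 6 * (N - 1))
    (fun i => ZZ N E (i / (6 * N)) (i % (6 * N)))

theorem dagWord_mem {N : ℕ} (hN : 0 < N) {E : ℕ → ℕ → Prop} : dagWord N E ∈ G5.language ↔
    Relation.ReflTransGen (DagStep N E) 0 (N - 1) := by
  have h0 : 0 < N * N * 5 * N * (6 * N) := by positivity
  unfold dagWord
  rw [hw_mem h0, rn_iff h0 _ le_rfl, rn_ro (fun k o h => by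
    have := ro_bound (fun k z h => zz_bound h) k o h
    omega), ← ro_final hN]
  constructor
  · rintro ⟨_, o, h1, h2⟩
    have : o = 6 * (N - 1) := by omega
    rw [this] at h1
    exact h1
  · intro h
    exact ⟨le_rfl, _, h, rfl⟩

end hw

end Pool.Agent.Helper75.Lin
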